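import Pool.Agent.Work.MP_d3517d_nt.A.Main
import Pool.Agent.Work.MP_d3517d_nt.Quat.Main
import Pool.Agent.Work.MP_d3517d_nt.Quat.Class
import Pool.Agent.Work.MP_d3517d_nt.Quat.Tors

/-!
# Equidistribution of the slopes of `T_p` for orders in definite quaternion algebras

`p` is any prime, `d : Datum p` an order `O` of a definite quaternion algebra over `ℚ` together
with a splitting at `p` under which `O` is `p`-adically dense in `M₂(ℤ_p)`,
`Γ = Gam d = O[1/p]ˣ ⊆ GL₂(ℚ_p)`, `Ω = GL₂(ℚ_p) / Γ`. The elements of `FormsAt act m n` are the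
automorphic forms of weight `n + 2` at the ideal `m` of a commutative ring `R` which acts on
`ℤ_p[Ω]` by `GL₂(ℚ_p)`-equivariant endomorphisms. The normalised slopes of `T_p` are
equidistributed on `[0, 1]`.
-/

set_option autoImplicit false

open Filter Topology MeasureTheory

noncomputable section

namespace Pool.Agent.Results.MP_d3517d_nt.DefiniteQuaternionOrders

open Gouvea Gouvea.Quat

/-- **Equidistribution of the slopes of `T_p`** for all orders, maximal at `p`, of definite
quaternion algebras over `ℚ`, and at every ideal of every commutative ring of Hecke operators. -/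
theorem result (p : ℕ) [Fact p.Prime] (d : Datum p) (hT : p ≤ 3 → NoTors d)
    (R : Type) [CommRing R] (act : R →+* Module.End ℤ_[p] ((G p ⧸ Gam d) →₀ ℤ_[p]))
    (hact : ∀ t, Equivariant (act t)) (m : Ideal R)
    (hm : ∃ n, Even n ∧ FormsAt act m n ≠ ⊥) :
    (∀ n, Even n →
      (∀ f ∈ FormsAt act m n, heckeT (G p ⧸ Gam d) n f ∈ FormsAt act m n) ∧
      Module.Finite ℚ_[p] (FormsAt act m n) ∧
      ∀ l ∈ eigs (heckeT (G p ⧸ Gam d) n) (FormsAt act m n), ‖l‖ ≤ 1) ∧
    ∃ (μ : ℕ → ProbabilityMeasure ENNReal) (ν : ProbabilityMeasure ENNReal),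
      (∀ᶠ T in atTop, (μ T : Measure ENNReal) = unif (slopes act m T)) ∧
      (ν : Measure ENNReal) = (volume.restrict (Set.Icc (0 : ℝ) 1)).map ENNReal.ofReal ∧
      Tendsto μ atTop (𝓝 ν) := by
  have hT' : NoTors d := by
    rcases Nat.lt_or_ge 3 p with h | h
    · have hpp : p.Prime := Fact.out
      have h4 : p ≠ 4 := by
        rintro rfl
        exact absurd hpp (by decide)
      exact noTors_of_five_le (by omega)
    · exact hT h
  exact quat_of (fun Ω _ h1 h2 h3 R _ act hact m hm =>
    Gouvea.equidistribution Ω h1 h2 h3 R act hact m hm) d hT' (exists_finite_reps d) act hact m hm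

end Pool.Agent.Results.MP_d3517d_nt.DefiniteQuaternionOrders
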