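import Pool.Agent.Work.MP_d3517d_nt.Fin.All

/-!
# Gouvêa's distribution question Q1 for every prime `p`, every level `N` prime to `p` and every
residual representation

The statement is `Gouvea.Q1 p N` of `Pool/Agent/Work/MP_d3517d_nt/Stmt.lean`.
-/

theorem Pool.Agent.Results.MP_d3517d_nt.GouveaEquidistribution.result (p : ℕ) [Fact p.Prime]
    (N : ℕ) (hN : 0 < N) (hpN : ¬ p ∣ N) : Gouvea.Q1 p N :=
  Gouvea.Fin.q1_all hN hpN
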